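import Mathlib

/-! The Alexander polynomials of pretzel knots with one even parameter, and the condition of Fox and Milnor. -/

set_option autoImplicit false

open LaurentPolynomial

namespace Pool.Agent.TH397.PZ

/-- `t + 2 + t⁻¹` times the Alexander polynomial of the pretzel knot `P(p, q, 2c)`, `p`, `q` odd -/
noncomputable def num (p q c : ℤ) : ℤ[T;T⁻¹] :=
  T ((p + q) / 2) + T (-((p + q) / 2)) + T ((p - q) / 2) + T (-((p - q) / 2))
    - C c * ((T 1 - T (-1)) * (T ((p + q) / 2) - T (-((p + q) / 2))))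

/-- `Δ` is the Alexander polynomial of the pretzel knot `P(p, q, 2c)`, `p`, `q` odd -/
def IsAlexander (p q c : ℤ) (Δ : ℤ[T;T⁻¹]) : Prop := (T 1 + 2 + T (-1)) * Δ = num p q c

/-- the condition of Fox and Milnor -/
def FoxMilnor (Δ : ℤ[T;T⁻¹]) : Prop :=
  ∃ (ε k : ℤ) (f : ℤ[T;T⁻¹]), (ε = 1 ∨ ε = -1) ∧ Δ = C ε * T k * (f * invert f)

end Pool.Agent.TH397.PZ
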