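import Mathlib
import Pool.Agent.TH397.PZ.Defs

/-! Evaluation of Laurent polynomials at units. -/

set_option autoImplicit false

open LaurentPolynomial

namespace Pool.Agent.TH397.PZ

variable {R S : Type*} [CommRing R] [CommRing S]

/-- evaluation at a unit -/
noncomputable def ev (x : Rˣ) : ℤ[T;T⁻¹] →+* R := LaurentPolynomial.eval₂ (Int.castRingHom R) x

lemma ev_T (x : Rˣ) (n : ℤ) : ev x (T n) = ((x ^ n : Rˣ) : R) := LaurentPolynomial.eval₂_T _ _ _

lemma ev_C (x : Rˣ) (n : ℤ) : ev x (C n) = (n : R) := by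
  unfold ev
  rw [LaurentPolynomial.eval₂_C]
  rfl

lemma ev_invert (x : Rˣ) (f : ℤ[T;T⁻¹]) : ev x (invert f) = ev x⁻¹ f := by
  induction f using LaurentPolynomial.induction_on' with
  | add p q hp hq => rw [map_add, map_add, map_add, hp, hq]
  | C_mul_T n a =>
    rw [map_mul, invert_C, invert_T, map_mul, map_mul, ev_C, ev_C, ev_T, ev_T, inv_zpow', ]

lemma ev_map (φ : R →+* S) (x : Rˣ) (f : ℤ[T;T⁻¹]) : φ (ev x f) = ev (Units.map (φ : R →* S) x) f := by
  induction f using LaurentPolynomial.induction_on' with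
  | add p q hp hq => rw [map_add, map_add, map_add, hp, hq]
  | C_mul_T n a =>
    rw [map_mul, map_mul, map_mul, ev_C, ev_C, ev_T, ev_T, map_intCast, ← map_zpow]
    rfl

/-- the numerator at a unit -/
lemma ev_num (x : Rˣ) (p q c : ℤ) : ev x (num p q c) =
    ((x ^ ((p + q) / 2) : Rˣ) : R) + ((x ^ (-((p + q) / 2)) : Rˣ) : R) + ((x ^ ((p - q) / 2) : Rˣ) : R)
      + ((x ^ (-((p - q) / 2)) : Rˣ) : R)
      - c * (((x : R) - ((x⁻¹ : Rˣ) : R)) * (((x ^ ((p + q) / 2) : Rˣ) : R) - ((x ^ (-((p + q) / 2)) : Rˣ) : R))) := by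
  unfold num
  simp only [map_add, map_sub, map_mul, ev_T, ev_C, zpow_one, zpow_neg_one]

/-- the consequence of the condition of Fox and Milnor for the numerator -/
lemma fm_num {p q c : ℤ} {Δ : ℤ[T;T⁻¹]} (hΔ : IsAlexander p q c Δ) (hs : FoxMilnor Δ) :
    ∃ (ε k : ℤ) (h : ℤ[T;T⁻¹]), (ε = 1 ∨ ε = -1) ∧ num p q c = C ε * T k * (h * invert h) := by
  obtain ⟨ε, k, f, hε, hf⟩ := hs
  refine ⟨ε, k, (1 + T 1) * f, hε, ?_⟩
  rw [← hΔ, hf, map_mul, map_add, map_one, invert_T]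
  have h1 : (T 1 + 2 + T (-1) : ℤ[T;T⁻¹]) = (1 + T 1) * (1 + T (-1)) := by
    have : (T 1 * T (-1) : ℤ[T;T⁻¹]) = 1 := by rw [← T_add]; simp
    linear_combination -this
  rw [h1]
  ring

end Pool.Agent.TH397.PZ
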