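import Mathlib
import Pool.Agent.TH397.PZ.Eval

/-! Reduction modulo a prime number dividing the number of full twists. -/

set_option autoImplicit false

open LaurentPolynomial

namespace Pool.Agent.TH397.PZ

section dual

variable {K : Type*} [Field K]

/-- the unit `x (1 + ε)` of the dual numbers -/
noncomputable def du (x : Kˣ) : (DualNumber K)ˣ where
  val := TrivSqZeroExt.inl (x : K) + (x : K) • DualNumber.eps
  inv := TrivSqZeroExt.inl ((x⁻¹ : Kˣ) : K) - ((x⁻¹ : Kˣ) : K) • DualNumber.eps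
  val_inv := by
    ext <;> simp
  inv_val := by
    ext <;> simp

lemma du_val (x : Kˣ) : ((du x : (DualNumber K)ˣ) : DualNumber K) = TrivSqZeroExt.inl (x : K) + (x : K) • DualNumber.eps := rfl

lemma du_inv_val (x : Kˣ) : (((du x)⁻¹ : (DualNumber K)ˣ) : DualNumber K) =
    TrivSqZeroExt.inl ((x⁻¹ : Kˣ) : K) - ((x⁻¹ : Kˣ) : K) • DualNumber.eps := rfl

lemma du_pow (x : Kˣ) (n : ℕ) : ((du x ^ n : (DualNumber K)ˣ) : DualNumber K) =
    TrivSqZeroExt.inl ((x : K) ^ n) + ((n : K) * (x : K) ^ n) • DualNumber.eps := by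
  rw [Units.val_pow_eq_pow_val, du_val]
  ext
  · simp
  · simp [TrivSqZeroExt.snd_pow]
    rcases Nat.eq_zero_or_pos n with rfl | h
    · simp
    · left
      rw [← pow_succ, Nat.sub_add_cancel h]

/-- the numerator at `x (1 + ε)`, if the twisting number vanishes in `K` -/
lemma ev_du_num {x : Kˣ} {b : ℕ} (hb : (b : K) = 0)
    (hx : ((x⁻¹ : Kˣ) : K) + x + ((x ^ (2 * b) : Kˣ) : K) + (((x ^ (2 * b))⁻¹ : Kˣ) : K) = 0) :
    ev (du x) (num (2 * b - 1) (-(2 * b + 1)) (-(b : ℤ) ^ 2)) = ((x : K) - ((x⁻¹ : Kˣ) : K)) • DualNumber.eps := by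
  have e1 : ((2 * b - 1 : ℤ) + (-(2 * b + 1))) / 2 = -1 := by omega
  have e2 : ((2 * b - 1 : ℤ) - (-(2 * b + 1))) / 2 = ((2 * b : ℕ) : ℤ) := by push_cast; omega
  rw [ev_num, e1, e2]
  have hy : du x ^ (2 * b) = Units.map (TrivSqZeroExt.inlHom K K : K →* DualNumber K) (x ^ (2 * b)) := by
    apply Units.ext
    rw [du_pow]
    push_cast
    rw [hb]
    simp
  have hc : (((-(b : ℤ) ^ 2 : ℤ)) : DualNumber K) = 0 := by
    have : ((b : ℕ) : DualNumber K) = 0 := by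
      have h1 : ((b : ℕ) : DualNumber K) = TrivSqZeroExt.inl (b : K) := by simp
      rw [h1, hb]; simp
    push_cast
    rw [this]; simp
  rw [hc, zero_mul, sub_zero, zpow_neg_one, neg_neg, zpow_one, zpow_neg, zpow_natCast, hy, ← map_inv, du_inv_val,
    du_val]
  have h3 : ((Units.map (TrivSqZeroExt.inlHom K K : K →* DualNumber K) (x ^ (2 * b)) : (DualNumber K)ˣ) : DualNumber K)
      = TrivSqZeroExt.inl ((x ^ (2 * b) : Kˣ) : K) := rfl
  have h4 : ((Units.map (TrivSqZeroExt.inlHom K K : K →* DualNumber K) ((x ^ (2 * b))⁻¹) : (DualNumber K)ˣ) : DualNumber K)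
      = TrivSqZeroExt.inl (((x ^ (2 * b))⁻¹ : Kˣ) : K) := rfl
  rw [h3, h4]
  generalize ((x ^ (2 * b) : Kˣ) : K) = A at *
  generalize (((x ^ (2 * b))⁻¹ : Kˣ) : K) = B at *
  generalize ((x⁻¹ : Kˣ) : K) = D at *
  ext
  · simp
    linear_combination hx
  · simp
    ring

/-- products of two elements without constant part -/
lemma dual_mul_zero {u v : DualNumber K} (hu : u.fst = 0) (hv : v.fst = 0) : u * v = 0 := by
  ext
  · simp [hu]
  · simp [hu, hv]

lemma ev_du_fst (x : Kˣ) (h : ℤ[T;T⁻¹]) : (ev (du x) h).fst = ev x h := by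
  have h1 := ev_map (TrivSqZeroExt.fstHom K K K).toRingHom (du x) h
  have h2 : Units.map ((TrivSqZeroExt.fstHom K K K).toRingHom : DualNumber K →* K) (du x) = x := by
    apply Units.ext
    simp [du_val]
  rw [h2] at h1
  exact h1

lemma ev_du_inv_fst (x : Kˣ) (h : ℤ[T;T⁻¹]) : (ev (du x)⁻¹ h).fst = ev x⁻¹ h := by
  have h1 := ev_map (TrivSqZeroExt.fstHom K K K).toRingHom (du x)⁻¹ h
  have h2 : Units.map ((TrivSqZeroExt.fstHom K K K).toRingHom : DualNumber K →* K) (du x)⁻¹ = x⁻¹ := by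
    rw [map_inv]
    congr 1
    apply Units.ext
    simp [du_val]
  rw [h2] at h1
  exact h1

/-- no double root -/
lemma no_double {x : Kˣ} {b : ℕ} (hb : (b : K) = 0)
    (hx : ((x⁻¹ : Kˣ) : K) + x + ((x ^ (2 * b) : Kˣ) : K) + (((x ^ (2 * b))⁻¹ : Kˣ) : K) = 0)
    (hx2 : (x : K) ≠ ((x⁻¹ : Kˣ) : K)) {ε k : ℤ} {h : ℤ[T;T⁻¹]}
    (hn : num (2 * b - 1) (-(2 * b + 1)) (-(b : ℤ) ^ 2) = C ε * T k * (h * invert h))
    (h1 : ev x h = 0) (h2 : ev x⁻¹ h = 0) : False := by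
  have h3 := ev_du_num hb hx
  have h0 : ev (du x) h * ev (du x)⁻¹ h = 0 :=
    dual_mul_zero (by rw [ev_du_fst]; exact h1) (by rw [ev_du_inv_fst]; exact h2)
  rw [hn, map_mul, map_mul (ev (du x)) h (invert h), ev_invert, h0, mul_zero] at h3
  have h4 := congrArg TrivSqZeroExt.snd h3
  simp at h4
  apply hx2
  rw [Units.val_inv_eq_inv_val]
  exact sub_eq_zero.1 h4.symm

end dual

/-- the criterion: the order of `p` modulo `q` is odd -/
theorem crit {b p q : ℕ} (hb0 : b ≠ 0) (hp : p.Prime) (hq : q.Prime) (hpb : p ∣ b)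
    (hqb : q ∣ (2 * b - 1) * (2 * b + 1)) {ε k : ℤ} (hε : ε = 1 ∨ ε = -1) {h : ℤ[T;T⁻¹]}
    (hn : num (2 * b - 1) (-(2 * b + 1)) (-(b : ℤ) ^ 2) = C ε * T k * (h * invert h)) :
    Odd (orderOf (p : ZMod q)) := by
  have := Fact.mk hp
  have := Fact.mk hq
  by_contra hodd
  rw [Nat.not_odd_iff_even] at hodd
  have hcopb : Nat.Coprime ((2 * b - 1) * (2 * b + 1)) (2 * b) := by
    apply Nat.Coprime.mul_left
    · have h1 : 2 * b - 1 + 1 = 2 * b := by omega
      nth_rewrite 2 [← h1]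
      exact (Nat.coprime_self_add_right).2 (Nat.coprime_one_right _)
    · exact Nat.Coprime.symm ((Nat.coprime_self_add_right).2 (Nat.coprime_one_right _))
  have hqp : Nat.Coprime q p :=
    Nat.Coprime.coprime_dvd_left hqb (hcopb.coprime_dvd_right (hpb.trans (Dvd.intro_left 2 rfl)))
  have hq2 : Nat.Coprime q 2 :=
    Nat.Coprime.coprime_dvd_left hqb (hcopb.coprime_dvd_right (Dvd.intro b rfl))
  have hqodd : q ≠ 2 := by rintro rfl; norm_num at hq2
  -- the field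
  let K := AlgebraicClosure (ZMod p)
  haveI : CharP K p := inferInstance
  have hqK : (q : K) ≠ 0 := by
    intro h0
    rw [CharP.cast_eq_zero_iff K p] at h0
    exact hp.one_lt.ne' ((Nat.dvd_one).1 (by rw [← hqp]; exact Nat.dvd_gcd h0 dvd_rfl))
  haveI : NeZero (q : K) := ⟨hqK⟩
  have hbK : (b : K) = 0 := (CharP.cast_eq_zero_iff K p b).2 hpb
  obtain ⟨ζ, hζ⟩ := HasEnoughRootsOfUnity.exists_primitiveRoot K q
  have hζ0 : ζ ≠ 0 := hζ.ne_zero hq.ne_zero
  -- exponent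
  obtain ⟨m, hm⟩ := hodd
  have hord : orderOf (p : ZMod q) ≠ 0 := by
    have hu : IsUnit (p : ZMod q) := (ZMod.isUnit_iff_coprime p q).2 hqp.symm
    obtain ⟨w, hw⟩ := hu
    rw [← hw, orderOf_units]
    exact (orderOf_pos w).ne'
  have hpm : ((p : ZMod q)) ^ m = -1 := by
    have h1 : ((p : ZMod q) ^ m) * (p : ZMod q) ^ m = 1 := by
      rw [← pow_add, ← hm, pow_orderOf_eq_one]
    rcases mul_self_eq_one_iff.1 h1 with h2 | h2
    · exfalso
      have h3 := orderOf_dvd_of_pow_eq_one h2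
      have h4 := Nat.le_of_dvd (by omega) h3
      omega
    · exact h2
  have hdiv : q ∣ p ^ m + 1 := by
    rw [← ZMod.natCast_eq_zero_iff]
    push_cast
    rw [hpm]; ring
  -- the unit
  let z : Kˣ := Units.mk0 ζ hζ0
  let x : Kˣ := -z
  have hz : (z : K) = ζ := rfl
  have hfz : ζ ^ (p ^ m) = ζ⁻¹ := by
    have h1 : ζ ^ (p ^ m + 1) = 1 := (hζ.pow_eq_one_iff_dvd _).2 hdiv
    rw [pow_succ] at h1
    exact eq_inv_of_mul_eq_one_left h1
  let F : K →+* K := iterateFrobenius K p m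
  have hF : ∀ y : K, F y = y ^ (p ^ m) := fun y => iterateFrobenius_def p m y
  have hFx : Units.map (F : K →* K) x = x⁻¹ := by
    apply Units.ext
    have h1 : F (-ζ) = -ζ⁻¹ := by rw [map_neg, hF, hfz]
    have h2 : ((x⁻¹ : Kˣ) : K) = -ζ⁻¹ := by
      rw [Units.val_inv_eq_inv_val]
      show (-ζ)⁻¹ = -ζ⁻¹
      rw [inv_neg]
    rw [h2]
    exact h1
  have hFx' : Units.map (F : K →* K) x⁻¹ = x := by rw [map_inv, hFx, inv_inv]
  -- the value
  have hval : ((x⁻¹ : Kˣ) : K) + x + ((x ^ (2 * b) : Kˣ) : K) + (((x ^ (2 * b))⁻¹ : Kˣ) : K) = 0 := by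
    have hx1 : (x : K) = -ζ := rfl
    rw [Units.val_inv_eq_inv_val, Units.val_inv_eq_inv_val, Units.val_pow_eq_pow_val, hx1, (even_two_mul b).neg_pow,
      inv_neg]
    have h3 : ζ ^ (2 * b) = ζ ∨ ζ ^ (2 * b) = ζ⁻¹ := by
      rcases (hq.dvd_mul).1 hqb with h4 | h4
      · left
        have h5 : ζ ^ (2 * b - 1) = 1 := (hζ.pow_eq_one_iff_dvd _).2 h4
        have h6 : 2 * b = (2 * b - 1) + 1 := by omega
        rw [h6, pow_succ, h5, one_mul]
      · right
        have h5 : ζ ^ (2 * b + 1) = 1 := (hζ.pow_eq_one_iff_dvd _).2 h4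
        rw [pow_succ] at h5
        exact eq_inv_of_mul_eq_one_left h5
    rcases h3 with h3 | h3
    · rw [h3]; ring
    · rw [h3, inv_inv]; ring
  have hx2 : (x : K) ≠ ((x⁻¹ : Kˣ) : K) := by
    intro h0
    have hx1 : (x : K) = -ζ := rfl
    rw [Units.val_inv_eq_inv_val, hx1, inv_neg, neg_inj] at h0
    have h3 : ζ ^ 2 = 1 := by
      rw [sq]
      nth_rewrite 2 [h0]
      exact mul_inv_cancel₀ hζ0
    have h4 := (hζ.pow_eq_one_iff_dvd _).1 h3
    exact hqodd ((Nat.prime_dvd_prime_iff_eq hq Nat.prime_two).1 h4)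
  -- one of the two factors vanishes, so both
  have hzero : ev x h = 0 ∨ ev x⁻¹ h = 0 := by
    have h0 : ev x (num (2 * b - 1) (-(2 * b + 1)) (-(b : ℤ) ^ 2)) = 0 := by
      have h1 := ev_du_fst x (num (2 * b - 1) (-(2 * b + 1)) (-(b : ℤ) ^ 2))
      rw [ev_du_num hbK hval] at h1
      rw [← h1]
      simp
    rw [hn, map_mul, map_mul, map_mul (ev x) h (invert h), ev_invert, ev_C, ev_T] at h0
    have h2 : (ε : K) * ((x ^ k : Kˣ) : K) ≠ 0 := by
      refine mul_ne_zero ?_ (Units.ne_zero _)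
      rcases hε with rfl | rfl <;> simp
    exact mul_eq_zero.1 ((mul_eq_zero.1 h0).resolve_left h2)
  rcases hzero with h0 | h0
  · refine no_double hbK hval hx2 hn h0 ?_
    have h1 := ev_map F x h
    rw [h0, map_zero, hFx] at h1
    exact h1.symm
  · refine no_double hbK hval hx2 hn ?_ h0
    have h1 := ev_map F x⁻¹ h
    rw [h0, map_zero, hFx'] at h1
    exact h1.symm

end Pool.Agent.TH397.PZ
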