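import Mathlib
import Pool.Agent.TH397.PZ.Crit

/-! Arithmetic consequences. -/

set_option autoImplicit false

open LaurentPolynomial

namespace Pool.Agent.TH397.PZ

lemma odd_mul {q : ℕ} {x y : ZMod q} (hx : Odd (orderOf x)) (hy : Odd (orderOf y)) : Odd (orderOf (x * y)) :=
  Odd.of_dvd_nat (hx.mul hy) (Commute.orderOf_mul_dvd_mul_orderOf (Commute.all x y))

lemma isSquare_of_odd {q : ℕ} {x : ZMod q} (hx : Odd (orderOf x)) : IsSquare x := by
  obtain ⟨m, hm⟩ := hx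
  refine ⟨x ^ (m + 1), ?_⟩
  rw [← pow_add]
  have : m + 1 + (m + 1) = orderOf x + 1 := by omega
  rw [this, pow_succ, pow_orderOf_eq_one, one_mul]

/-- the divisors of `b` have odd order -/
lemma odd_dvd {b q : ℕ} (hb : b ≠ 0) (h : ∀ p : ℕ, p.Prime → p ∣ b → Odd (orderOf (p : ZMod q))) :
    ∀ n : ℕ, n ∣ b → Odd (orderOf (n : ZMod q)) := by
  intro n
  induction n using induction_on_primes with
  | zero => intro h0; exact absurd (zero_dvd_iff.1 h0) hb
  | one => intro _; simp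
  | prime_mul p a hp ih =>
    intro hn
    push_cast
    exact odd_mul (h p hp ((Dvd.intro a rfl).trans hn)) (ih ((Dvd.intro_left p rfl).trans hn))

/-- `b` is odd -/
lemma b_odd {b : ℕ} (hb : 2 ≤ b)
    (h : ∀ p q : ℕ, p.Prime → q.Prime → p ∣ b → q ∣ (2 * b - 1) * (2 * b + 1) → Odd (orderOf (p : ZMod q))) :
    b % 2 = 1 := by
  by_contra h0
  have h2 : 2 ∣ b := by omega
  obtain ⟨q, hq, hqd⟩ := Nat.exists_prime_and_dvd (show 2 * b + 1 ≠ 1 by omega)
  have hqd' : q ∣ (2 * b - 1) * (2 * b + 1) := Dvd.dvd.mul_left hqd _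
  have h1 : Odd (orderOf ((2 : ℕ) : ZMod q)) := h 2 q Nat.prime_two hq h2 hqd'
  have h3 : Odd (orderOf (b : ZMod q)) := odd_dvd (by omega) (fun p hp hpb => h p q hp hq hpb hqd') b dvd_rfl
  have h4 := odd_mul h1 h3
  have hq2 : q ≠ 2 := by
    rintro rfl
    omega
  have := Fact.mk hq
  have h5 : ((2 : ℕ) : ZMod q) * (b : ZMod q) = -1 := by
    have h6 : ((2 * b + 1 : ℕ) : ZMod q) = 0 := (ZMod.natCast_eq_zero_iff _ _).2 hqd
    push_cast at h6 ⊢
    exact eq_neg_of_add_eq_zero_left h6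
  rw [h5, orderOf_neg_one, ZMod.ringChar_zmod_n, if_neg hq2] at h4
  exact absurd h4 (by decide)

/-- prime factors of `2b - 1` -/
lemma prime_a {b q : ℕ} (hb : 2 ≤ b)
    (h : ∀ p q : ℕ, p.Prime → q.Prime → p ∣ b → q ∣ (2 * b - 1) * (2 * b + 1) → Odd (orderOf (p : ZMod q)))
    (hq : q.Prime) (hqd : q ∣ 2 * b - 1) : q % 8 = 1 ∨ q % 8 = 7 := by
  have hqd' : q ∣ (2 * b - 1) * (2 * b + 1) := Dvd.dvd.mul_right hqd _
  have hq2 : q ≠ 2 := by rintro rfl; omega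
  have := Fact.mk hq
  obtain ⟨y, hy⟩ := isSquare_of_odd (odd_dvd (by omega) (fun p hp hpb => h p q hp hq hpb hqd') b dvd_rfl)
  refine (ZMod.exists_sq_eq_two_iff hq2).1 ⟨2 * y, ?_⟩
  have h6 : ((2 * b - 1 : ℕ) : ZMod q) = 0 := (ZMod.natCast_eq_zero_iff _ _).2 hqd
  rw [Nat.cast_sub (by omega)] at h6
  push_cast at h6
  linear_combination (-2) * h6 + 4 * hy

/-- prime factors of `2b + 1` -/
lemma prime_a2 {b q : ℕ} (hb : 2 ≤ b)
    (h : ∀ p q : ℕ, p.Prime → q.Prime → p ∣ b → q ∣ (2 * b - 1) * (2 * b + 1) → Odd (orderOf (p : ZMod q)))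
    (hq : q.Prime) (hqd : q ∣ 2 * b + 1) : q % 8 = 1 ∨ q % 8 = 3 := by
  have hqd' : q ∣ (2 * b - 1) * (2 * b + 1) := Dvd.dvd.mul_left hqd _
  have hq2 : q ≠ 2 := by rintro rfl; omega
  have := Fact.mk hq
  obtain ⟨y, hy⟩ := isSquare_of_odd (odd_dvd (by omega) (fun p hp hpb => h p q hp hq hpb hqd') b dvd_rfl)
  refine (ZMod.exists_sq_eq_neg_two_iff hq2).1 ⟨2 * y, ?_⟩
  have h6 : ((2 * b + 1 : ℕ) : ZMod q) = 0 := (ZMod.natCast_eq_zero_iff _ _).2 hqd
  push_cast at h6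
  linear_combination (-2) * h6 + 4 * hy

/-- `2b - 1` is one modulo eight -/
lemma a_mod {b : ℕ} (hb : 2 ≤ b)
    (h : ∀ p q : ℕ, p.Prime → q.Prime → p ∣ b → q ∣ (2 * b - 1) * (2 * b + 1) → Odd (orderOf (p : ZMod q))) :
    b % 4 = 1 := by
  have h1 := b_odd hb h
  have key : ∀ n : ℕ, n ∣ 2 * b - 1 → n % 8 = 1 ∨ n % 8 = 7 := by
    intro n
    induction n using induction_on_primes with
    | zero => intro h0; have := zero_dvd_iff.1 h0; omega
    | one => intro _; left; rfl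
    | prime_mul p a hp ih =>
      intro hn
      have h2 := prime_a hb h hp ((Dvd.intro a rfl).trans hn)
      have h3 := ih ((Dvd.intro_left p rfl).trans hn)
      rw [Nat.mul_mod]
      rcases h2 with h2 | h2 <;> rcases h3 with h3 | h3 <;> rw [h2, h3] <;> norm_num
  have := key _ dvd_rfl
  omega

end Pool.Agent.TH397.PZ
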