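import Mathlib
import Pool.Agent.TH397.PZ.Arith

/-! Values at the roots of unity of orders `3`, `4`, `6`. -/

set_option autoImplicit false

open LaurentPolynomial

namespace Pool.Agent.TH397.PZ

lemma exists_unit (s : ℤ) : ∃ x : ℂˣ, (x : ℂ) + ((x⁻¹ : ℂˣ) : ℂ) = s := by
  obtain ⟨y, hy⟩ := IsAlgClosed.exists_pow_nat_eq ((s : ℂ) ^ 2 - 4) (n := 2) (by norm_num)
  have h1 : (((s : ℂ) + y) / 2) * (((s : ℂ) - y) / 2) = 1 := by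
    linear_combination (-1 / 4 : ℂ) * hy
  refine ⟨⟨((s : ℂ) + y) / 2, ((s : ℂ) - y) / 2, h1, by rw [mul_comm]; exact h1⟩, ?_⟩
  show ((s : ℂ) + y) / 2 + ((s : ℂ) - y) / 2 = s
  ring

lemma zrep {x : ℂˣ} {s : ℤ} (hx : (x : ℂ) + ((x⁻¹ : ℂˣ) : ℂ) = s) (n : ℤ) :
    ∃ u v : ℤ, ((x ^ n : ℂˣ) : ℂ) = u + v * x ∧ ((x ^ (-n) : ℂˣ) : ℂ) = u + v * ((x⁻¹ : ℂˣ) : ℂ) := by
  have hm : (x : ℂ) * ((x⁻¹ : ℂˣ) : ℂ) = 1 := by rw [← Units.val_mul]; simp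
  have step : ∀ (m : ℤ), (∃ u v : ℤ, ((x ^ m : ℂˣ) : ℂ) = u + v * x ∧ ((x ^ (-m) : ℂˣ) : ℂ) = u + v * ((x⁻¹ : ℂˣ) : ℂ)) →
      ∃ u v : ℤ, ((x ^ (m + 1) : ℂˣ) : ℂ) = u + v * x ∧ ((x ^ (-(m + 1)) : ℂˣ) : ℂ) = u + v * ((x⁻¹ : ℂˣ) : ℂ) := by
    rintro m ⟨u, v, h1, h2⟩
    refine ⟨-v, u + s * v, ?_, ?_⟩
    · rw [zpow_add, zpow_one, Units.val_mul, h1]
      simp only [Int.cast_neg, Int.cast_add, Int.cast_mul]
      linear_combination v * (x : ℂ) * hx - v * hm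
    · have : -(m + 1) = -m + (-1) := by ring
      rw [this, zpow_add, zpow_neg_one, Units.val_mul, h2]
      simp only [Int.cast_neg, Int.cast_add, Int.cast_mul]
      linear_combination v * ((x⁻¹ : ℂˣ) : ℂ) * hx - v * hm
  have step' : ∀ (m : ℤ), (∃ u v : ℤ, ((x ^ m : ℂˣ) : ℂ) = u + v * x ∧ ((x ^ (-m) : ℂˣ) : ℂ) = u + v * ((x⁻¹ : ℂˣ) : ℂ)) →
      ∃ u v : ℤ, ((x ^ (m - 1) : ℂˣ) : ℂ) = u + v * x ∧ ((x ^ (-(m - 1)) : ℂˣ) : ℂ) = u + v * ((x⁻¹ : ℂˣ) : ℂ) := by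
    rintro m ⟨u, v, h1, h2⟩
    refine ⟨v + s * u, -u, ?_, ?_⟩
    · rw [zpow_sub, zpow_one, ← div_eq_mul_inv, div_eq_mul_inv, Units.val_mul, h1]
      simp only [Int.cast_neg, Int.cast_add, Int.cast_mul]
      linear_combination u * hx + v * hm
    · have : -(m - 1) = -m + 1 := by ring
      rw [this, zpow_add, zpow_one, Units.val_mul, h2]
      simp only [Int.cast_neg, Int.cast_add, Int.cast_mul]
      linear_combination u * hx + v * hm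
  induction n with
  | zero => exact ⟨1, 0, by simp, by simp⟩
  | succ i ih => exact step _ ih
  | pred i ih => exact step' _ ih

lemma frep {x : ℂˣ} {s : ℤ} (hx : (x : ℂ) + ((x⁻¹ : ℂˣ) : ℂ) = s) (f : ℤ[T;T⁻¹]) :
    ∃ u v : ℤ, ev x f = u + v * x ∧ ev x⁻¹ f = u + v * ((x⁻¹ : ℂˣ) : ℂ) := by
  induction f using LaurentPolynomial.induction_on' with
  | add p q hp hq =>
    obtain ⟨u, v, h1, h2⟩ := hp
    obtain ⟨u', v', h1', h2'⟩ := hq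
    refine ⟨u + u', v + v', ?_, ?_⟩
    · rw [map_add, h1, h1']; push_cast; ring
    · rw [map_add, h2, h2']; push_cast; ring
  | C_mul_T n a =>
    obtain ⟨u, v, h1, h2⟩ := zrep hx n
    refine ⟨a * u, a * v, ?_, ?_⟩
    · rw [map_mul, ev_C, ev_T, h1]; push_cast; ring
    · rw [map_mul, ev_C, ev_T, inv_zpow', h2]; push_cast; ring

/-- the norm equation -/
lemma norm_eq {x : ℂˣ} {s : ℤ} (hx : (x : ℂ) + ((x⁻¹ : ℂˣ) : ℂ) = s) (hx1 : ‖(x : ℂ)‖ = 1) (hs : -1 ≤ s ∧ s ≤ 1)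
    {p q c : ℤ} {Δ : ℤ[T;T⁻¹]} (hΔ : IsAlexander p q c Δ) (hf : FoxMilnor Δ) {N : ℤ} (hN : 0 ≤ N)
    (hev : ev x (num p q c) = N) : ∃ u v : ℤ, (s + 2) * (u ^ 2 + s * u * v + v ^ 2) = N := by
  obtain ⟨ε, k, f, hε, hΔf⟩ := hf
  obtain ⟨u, v, h1, h2⟩ := frep hx f
  refine ⟨u, v, ?_⟩
  have hm : (x : ℂ) * ((x⁻¹ : ℂˣ) : ℂ) = 1 := by rw [← Units.val_mul]; simp
  have h3 : ((s : ℂ) + 2) * (ε * ((x ^ k : ℂˣ) : ℂ) * ((u : ℂ) ^ 2 + s * u * v + v ^ 2)) = N := by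
    rw [← hev, ← hΔ, hΔf]
    simp only [map_mul, map_add, ev_T, ev_C, ev_invert, h1, h2, zpow_one, zpow_neg_one, map_ofNat]
    rw [← hx]
    linear_combination (-(((x : ℂ) + ((x⁻¹ : ℂˣ) : ℂ) + 2) * (ε * ((x ^ k : ℂˣ) : ℂ)) * (v : ℂ) ^ 2)) * hm
  have h4 : ‖((x ^ k : ℂˣ) : ℂ)‖ = 1 := by
    rw [Units.val_zpow_eq_zpow_val, norm_zpow, hx1, one_zpow]
  have h5 := congrArg norm h3
  rw [norm_mul, norm_mul, norm_mul, h4, mul_one] at h5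
  have h6 : ‖(ε : ℂ)‖ = 1 := by rcases hε with rfl | rfl <;> simp
  rw [h6, one_mul] at h5
  have h7 : (0 : ℤ) ≤ u ^ 2 + s * u * v + v ^ 2 := by
    have : s = -1 ∨ s = 0 ∨ s = 1 := by omega
    rcases this with rfl | rfl | rfl <;> nlinarith [sq_nonneg (u - v), sq_nonneg (u + v), sq_nonneg u, sq_nonneg v]
  have h8 : ‖((s : ℂ) + 2)‖ = ((s + 2 : ℤ) : ℝ) := by
    have : ((s : ℂ) + 2) = ((s + 2 : ℤ) : ℂ) := by push_cast; ring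
    rw [this, Complex.norm_intCast, abs_of_nonneg]
    exact_mod_cast (by omega : (0 : ℤ) ≤ s + 2)
  have h9 : ‖((u : ℂ) ^ 2 + s * u * v + v ^ 2)‖ = ((u ^ 2 + s * u * v + v ^ 2 : ℤ) : ℝ) := by
    have : ((u : ℂ) ^ 2 + s * u * v + v ^ 2) = ((u ^ 2 + s * u * v + v ^ 2 : ℤ) : ℂ) := by push_cast; ring
    rw [this, Complex.norm_intCast, abs_of_nonneg]
    exact_mod_cast h7
  have h10 : ‖(N : ℂ)‖ = (N : ℝ) := by
    rw [Complex.norm_intCast, abs_of_nonneg]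
    exact_mod_cast hN
  rw [h8, h9, h10] at h5
  exact_mod_cast h5

end Pool.Agent.TH397.PZ
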