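import Mathlib
import Pool.Agent.TH397.PZ.Roots

/-! The pretzel knots `P(a, -a-2, -(a+1)²/2)`. -/

set_option autoImplicit false

open LaurentPolynomial

namespace Pool.Agent.TH397.PZ

lemma ev_num_b {R : Type*} [CommRing R] (x : Rˣ) (b : ℕ) :
    ev x (num (2 * b - 1) (-(2 * b + 1)) (-(b : ℤ) ^ 2)) = ((x⁻¹ : Rˣ) : R) + x + ((x ^ (2 * b) : Rˣ) : R)
      + ((x⁻¹ ^ (2 * b) : Rˣ) : R) - (b : R) ^ 2 * ((x : R) - ((x⁻¹ : Rˣ) : R)) ^ 2 := by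
  have e1 : ((2 * b - 1 : ℤ) + (-(2 * b + 1))) / 2 = -1 := by omega
  have e2 : ((2 * b - 1 : ℤ) - (-(2 * b + 1))) / 2 = ((2 * b : ℕ) : ℤ) := by push_cast; omega
  rw [ev_num, e1, e2, zpow_neg_one, neg_neg, zpow_one, zpow_neg, zpow_natCast, inv_pow]
  simp only [Int.cast_neg, Int.cast_pow, Int.cast_natCast]
  ring

/-- the value at `x`, `x + x⁻¹ = s` -/
lemma ev_s {x : ℂˣ} {s : ℤ} (hx : (x : ℂ) + ((x⁻¹ : ℂˣ) : ℂ) = s) (b : ℕ) {w : ℤ}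
    (hw : ((x ^ (2 * b) : ℂˣ) : ℂ) + ((x⁻¹ ^ (2 * b) : ℂˣ) : ℂ) = w) :
    ev x (num (2 * b - 1) (-(2 * b + 1)) (-(b : ℤ) ^ 2)) = ((s + w + (b : ℤ) ^ 2 * (4 - s ^ 2) : ℤ) : ℂ) := by
  have hm : (x : ℂ) * ((x⁻¹ : ℂˣ) : ℂ) = 1 := by rw [← Units.val_mul]; simp
  rw [ev_num_b]
  push_cast [-Units.val_inv_eq_inv_val]
  rw [← hx, ← hw]
  simp only [Units.val_pow_eq_pow_val]
  linear_combination (4 * (b : ℂ) ^ 2) * hm

lemma order4 {x : ℂˣ} (hx : (x : ℂ) + ((x⁻¹ : ℂˣ) : ℂ) = (0 : ℤ)) : x ^ 2 = -1 := by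
  have hm : (x : ℂ) * ((x⁻¹ : ℂˣ) : ℂ) = 1 := by rw [← Units.val_mul]; simp
  apply Units.ext
  rw [Units.val_pow_eq_pow_val, Units.val_neg, Units.val_one]
  push_cast [-Units.val_inv_eq_inv_val] at hx
  linear_combination (x : ℂ) * hx - hm

lemma order3 {x : ℂˣ} (hx : (x : ℂ) + ((x⁻¹ : ℂˣ) : ℂ) = (-1 : ℤ)) : x ^ 3 = 1 := by
  have hm : (x : ℂ) * ((x⁻¹ : ℂˣ) : ℂ) = 1 := by rw [← Units.val_mul]; simp
  apply Units.ext
  rw [Units.val_pow_eq_pow_val, Units.val_one]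
  push_cast [-Units.val_inv_eq_inv_val] at hx
  linear_combination ((x : ℂ) ^ 2 - x) * hx + (1 - (x : ℂ)) * hm

lemma order6 {x : ℂˣ} (hx : (x : ℂ) + ((x⁻¹ : ℂˣ) : ℂ) = (1 : ℤ)) : x ^ 3 = -1 := by
  have hm : (x : ℂ) * ((x⁻¹ : ℂˣ) : ℂ) = 1 := by rw [← Units.val_mul]; simp
  apply Units.ext
  rw [Units.val_pow_eq_pow_val, Units.val_neg, Units.val_one]
  push_cast [-Units.val_inv_eq_inv_val] at hx
  linear_combination ((x : ℂ) ^ 2 + x) * hx - (1 + (x : ℂ)) * hm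

/-- the consequences of the condition of Fox and Milnor -/
theorem consequences {b : ℕ} (hb : 2 ≤ b) {Δ : ℤ[T;T⁻¹]}
    (hΔ : IsAlexander (2 * b - 1) (-(2 * b + 1)) (-(b : ℤ) ^ 2) Δ) (hf : FoxMilnor Δ) :
    (∀ p q : ℕ, p.Prime → q.Prime → p ∣ b → q ∣ (2 * b - 1) * (2 * b + 1) → Odd (orderOf (p : ZMod q))) ∧
    b % 4 = 1 ∧ b % 3 = 1 ∧ (b % 5 = 1 ∨ b % 5 = 4) ∧
    (∃ u v : ℤ, 2 * (b : ℤ) ^ 2 - 1 = u ^ 2 + v ^ 2) ∧ (∃ u v : ℤ, 3 * (b : ℤ) ^ 2 - 2 = u ^ 2 - u * v + v ^ 2) := by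
  have H : ∀ p q : ℕ, p.Prime → q.Prime → p ∣ b → q ∣ (2 * b - 1) * (2 * b + 1) → Odd (orderOf (p : ZMod q)) := by
    obtain ⟨ε, k, h, hε, hn⟩ := fm_num hΔ hf
    intro p q hp hq hpb hqb
    exact crit (by omega) hp hq hpb hqb hε hn
  have h4 := a_mod hb H
  -- three does not divide `b`
  have h3 : b % 3 ≠ 0 := by
    intro h0
    obtain ⟨x, hx⟩ := exists_unit 1
    have ho := order6 hx
    have hx6 : x ^ 6 = 1 := by
      have : x ^ 6 = (x ^ 3) ^ 2 := by rw [← pow_mul]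
      rw [this, ho]; simp
    have hn1 : ‖(x : ℂ)‖ = 1 := by
      have h6 : (x : ℂ) ^ 6 = 1 := by rw [← Units.val_pow_eq_pow_val, hx6, Units.val_one]
      exact Complex.norm_eq_one_of_pow_eq_one h6 (by norm_num)
    obtain ⟨m, hm⟩ : ∃ m, 2 * b = 6 * m := ⟨b / 3, by omega⟩
    have hw : ((x ^ (2 * b) : ℂˣ) : ℂ) + ((x⁻¹ ^ (2 * b) : ℂˣ) : ℂ) = (2 : ℤ) := by
      rw [hm, pow_mul, pow_mul, inv_pow, hx6]
      norm_num
    obtain ⟨u, v, huv⟩ := norm_eq hx hn1 (by norm_num) hΔ hf (N := 1 + 2 + (b : ℤ) ^ 2 * (4 - 1 ^ 2)) (by positivity)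
      (ev_s hx b hw)
    obtain ⟨c, hc⟩ : ∃ c : ℤ, (b : ℤ) = 2 * c + 1 := ⟨(b : ℤ) / 2, by omega⟩
    have h5 : u ^ 2 + u * v + v ^ 2 = 4 * (c * c + c) + 2 := by
      have h5' : 3 * (u ^ 2 + u * v + v ^ 2) = 3 * (4 * (c * c + c) + 2) := by
        rw [hc] at huv
        linear_combination huv
      exact mul_left_cancel₀ (by norm_num) h5'
    have h7 : ∀ r s : ZMod 4, r ^ 2 + r * s + s ^ 2 ≠ 2 := by decide
    apply h7 u v
    have h8 := congrArg (Int.cast : ℤ → ZMod 4) h5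
    push_cast at h8
    rw [h8]
    have : (4 : ZMod 4) = 0 := rfl
    rw [this]; ring
  -- `b` is one modulo three
  have h3' : b % 3 = 1 := by
    by_contra h0
    have h1 := prime_a hb H Nat.prime_three (by omega)
    omega
  have h5 : b % 5 = 1 ∨ b % 5 = 4 := by
    by_contra h0
    have h1 : b % 5 = 0 ∨ b % 5 = 2 ∨ b % 5 = 3 := by omega
    rcases h1 with h1 | h1 | h1
    · have h2 := H 5 3 Nat.prime_five Nat.prime_three (by omega) (Dvd.dvd.mul_left (by omega) _)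
      have h6 : ((5 : ℕ) : ZMod 3) = -1 := by decide
      rw [h6, orderOf_neg_one, ZMod.ringChar_zmod_n] at h2
      norm_num at h2
    · have h2 := prime_a2 hb H Nat.prime_five (by omega)
      omega
    · have h2 := prime_a hb H Nat.prime_five (by omega)
      omega
  refine ⟨H, h4, h3', h5, ?_, ?_⟩
  · obtain ⟨x, hx⟩ := exists_unit 0
    have ho := order4 hx
    have hx4 : x ^ 4 = 1 := by
      have : x ^ 4 = (x ^ 2) ^ 2 := by rw [← pow_mul]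
      rw [this, ho]; simp
    have hn1 : ‖(x : ℂ)‖ = 1 := by
      have h6 : (x : ℂ) ^ 4 = 1 := by rw [← Units.val_pow_eq_pow_val, hx4, Units.val_one]
      exact Complex.norm_eq_one_of_pow_eq_one h6 (by norm_num)
    have hbodd : Odd b := by rw [Nat.odd_iff]; omega
    have hw : ((x ^ (2 * b) : ℂˣ) : ℂ) + ((x⁻¹ ^ (2 * b) : ℂˣ) : ℂ) = (-2 : ℤ) := by
      rw [pow_mul, pow_mul, inv_pow, ho, inv_neg, inv_one, hbodd.neg_one_pow]
      norm_num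
    obtain ⟨u, v, huv⟩ := norm_eq hx hn1 (by norm_num) hΔ hf (N := 0 + (-2) + (b : ℤ) ^ 2 * (4 - 0 ^ 2))
      (by nlinarith [(show (2 : ℤ) ≤ b by exact_mod_cast hb)]) (ev_s hx b hw)
    refine ⟨u, v, ?_⟩
    have h6 : 2 * (2 * (b : ℤ) ^ 2 - 1) = 2 * (u ^ 2 + v ^ 2) := by linear_combination -huv
    exact mul_left_cancel₀ (by norm_num) h6
  · obtain ⟨x, hx⟩ := exists_unit (-1)
    have ho := order3 hx
    have hn1 : ‖(x : ℂ)‖ = 1 := by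
      have h6 : (x : ℂ) ^ 3 = 1 := by rw [← Units.val_pow_eq_pow_val, ho, Units.val_one]
      exact Complex.norm_eq_one_of_pow_eq_one h6 (by norm_num)
    obtain ⟨m, hm⟩ : ∃ m, 2 * b = 3 * m + 2 := ⟨(2 * b - 2) / 3, by omega⟩
    have hmm : (x : ℂ) * ((x⁻¹ : ℂˣ) : ℂ) = 1 := by rw [← Units.val_mul]; simp
    have hw : ((x ^ (2 * b) : ℂˣ) : ℂ) + ((x⁻¹ ^ (2 * b) : ℂˣ) : ℂ) = (-1 : ℤ) := by
      have ho' : x⁻¹ ^ 3 = 1 := by rw [inv_pow, ho, inv_one]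
      rw [hm, pow_add, pow_add, pow_mul, pow_mul, ho', ho, one_pow, one_mul, one_mul,
        Units.val_pow_eq_pow_val, Units.val_pow_eq_pow_val]
      simp only [Int.cast_neg, Int.cast_one] at hx ⊢
      linear_combination ((x : ℂ) + ((x⁻¹ : ℂˣ) : ℂ) - 1) * hx - 2 * hmm
    obtain ⟨u, v, huv⟩ := norm_eq hx hn1 (by norm_num) hΔ hf (N := -1 + (-1) + (b : ℤ) ^ 2 * (4 - (-1) ^ 2))
      (by nlinarith [(show (2 : ℤ) ≤ b by exact_mod_cast hb)]) (ev_s hx b hw)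
    exact ⟨u, v, by linear_combination -huv⟩

end Pool.Agent.TH397.PZ
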