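import Mathlib
import Pool.Agent.TH397.PZ.Final

/-! The Alexander polynomial of `P(a, -a-2, -(a+1)²/2)` in terms of Chebyshev polynomials, and its values at all
integers `t + t⁻¹ = c`. -/

set_option autoImplicit false

open LaurentPolynomial

namespace Pool.Agent.TH397.PZ

open Polynomial.Chebyshev in
/-- `(t - t⁻¹) S_n(t + t⁻¹) = t^(n+1) - t^(-n-1)` -/
lemma cheb (n : ℕ) : (T 1 - T (-1) : ℤ[T;T⁻¹]) * (S ℤ[T;T⁻¹] n).eval (T 1 + T (-1)) = T (n + 1) - T (-(n + 1)) ∧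
    (T 1 - T (-1) : ℤ[T;T⁻¹]) * (S ℤ[T;T⁻¹] (n + 1)).eval (T 1 + T (-1)) = T (n + 2) - T (-(n + 2)) := by
  induction n with
  | zero =>
    constructor
    · simp
    · simp only [Nat.cast_zero, zero_add, S_one, Polynomial.eval_X]
      have h1 : (T 1 * T (-1) : ℤ[T;T⁻¹]) = 1 := by rw [← T_add]; simp
      have h2 : (T 1 * T 1 : ℤ[T;T⁻¹]) = T 2 := by rw [← T_add]; norm_num
      have h3 : (T (-1) * T (-1) : ℤ[T;T⁻¹]) = T (-2) := by rw [← T_add]; norm_num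
      linear_combination h2 - h3
  | succ n ih =>
    obtain ⟨h1, h2⟩ := ih
    refine ⟨?_, ?_⟩
    · push_cast
      rw [h2]
      congr 2
    · push_cast
      have e : ((n : ℤ) + 1 + 1) = n + 2 := by ring
      rw [e, S_add_two, Polynomial.eval_sub, Polynomial.eval_mul, Polynomial.eval_X]
      have h3 : (T 1 * T ((n : ℤ) + 2) : ℤ[T;T⁻¹]) = T ((n : ℤ) + 1 + 2) := by rw [← T_add]; congr 1; ring
      have h4 : (T 1 * T (-((n : ℤ) + 2)) : ℤ[T;T⁻¹]) = T (-((n : ℤ) + 1)) := by rw [← T_add]; congr 1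
      have h5 : (T (-1) * T ((n : ℤ) + 2) : ℤ[T;T⁻¹]) = T ((n : ℤ) + 1) := by rw [← T_add]; congr 1; omega
      have h6 : (T (-1) * T (-((n : ℤ) + 2)) : ℤ[T;T⁻¹]) = T (-((n : ℤ) + 1 + 2)) := by rw [← T_add]; congr 1; ring
      linear_combination (T 1 + T (-1)) * h2 - h1 + h3 - h4 + h5 - h6

/-- the Chebyshev value -/
noncomputable def chS (b : ℕ) : ℤ[T;T⁻¹] := (Polynomial.Chebyshev.S ℤ[T;T⁻¹] (b - 1)).eval (T 1 + T (-1))

/-- the explicit polynomial -/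
noncomputable def alex (b : ℕ) : ℤ[T;T⁻¹] := 1 + (2 - (T 1 + T (-1))) * (C ((b : ℤ) ^ 2) - chS b ^ 2)

lemma chS_eq {b : ℕ} (hb : 1 ≤ b) : (T 1 - T (-1) : ℤ[T;T⁻¹]) * chS b = T b - T (-b) := by
  obtain ⟨n, rfl⟩ : ∃ n, b = n + 1 := ⟨b - 1, by omega⟩
  have := (cheb n).1
  unfold chS
  push_cast
  rw [add_sub_cancel_right, this]

lemma isAlexander_alex {b : ℕ} (hb : 1 ≤ b) : IsAlexander (2 * b - 1) (-(2 * b + 1)) (-(b : ℤ) ^ 2) (alex b) := by
  unfold IsAlexander alex num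
  have e1 : ((2 * b - 1 : ℤ) + (-(2 * b + 1))) / 2 = -1 := by omega
  have e2 : ((2 * b - 1 : ℤ) - (-(2 * b + 1))) / 2 = 2 * b := by omega
  rw [e1, e2, neg_neg]
  have h1 : (T 1 * T (-1) : ℤ[T;T⁻¹]) = 1 := by rw [← T_add]; simp
  have h2 := chS_eq hb
  have h3 : (T (b : ℤ) * T (b : ℤ) : ℤ[T;T⁻¹]) = T (2 * (b : ℤ)) := by rw [← T_add]; congr 1; ring
  have h4 : (T (-(b : ℤ)) * T (-(b : ℤ)) : ℤ[T;T⁻¹]) = T (-(2 * (b : ℤ))) := by rw [← T_add]; congr 1; ring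
  have h5 : (T (b : ℤ) * T (-(b : ℤ)) : ℤ[T;T⁻¹]) = 1 := by rw [← T_add]; simp
  have h6 : ((T 1 - T (-1)) * chS b : ℤ[T;T⁻¹]) ^ 2 = T (2 * (b : ℤ)) + T (-(2 * (b : ℤ))) - 2 := by
    rw [h2]
    linear_combination h3 + h4 - 2 * h5
  have h7 : (C (-(b : ℤ) ^ 2) : ℤ[T;T⁻¹]) = -C ((b : ℤ) ^ 2) := map_neg _ _
  rw [h7]
  linear_combination h6 - (4 * (C ((b : ℤ) ^ 2) - chS b ^ 2)) * h1

lemma factor_ne_zero : (T 1 + 2 + T (-1) : ℤ[T;T⁻¹]) ≠ 0 := by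
  intro h
  have h1 := congrArg (ev (1 : ℤˣ)) h
  simp only [map_add, ev_T, map_ofNat, map_zero] at h1
  norm_num at h1

lemma eq_alex {b : ℕ} (hb : 1 ≤ b) {Δ : ℤ[T;T⁻¹]} (hΔ : IsAlexander (2 * b - 1) (-(2 * b + 1)) (-(b : ℤ) ^ 2) Δ) :
    Δ = alex b :=
  mul_left_cancel₀ factor_ne_zero (Eq.trans hΔ (isAlexander_alex hb).symm)

/-- the unit and the sign in the condition of Fox and Milnor are trivial -/
lemma fm_norm {Δ : ℤ[T;T⁻¹]} (hinv : invert Δ = Δ) (h1 : ev (1 : ℤˣ) Δ = 1) (hf : FoxMilnor Δ) :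
    ∃ f : ℤ[T;T⁻¹], Δ = f * invert f := by
  obtain ⟨ε, k, f, hε, h⟩ := hf
  have h2 := h1
  rw [h, map_mul, map_mul, map_mul, ev_invert, ev_C, ev_T, one_zpow, inv_one] at h2
  have hε1 : ε = 1 := by
    rcases hε with rfl | rfl
    · rfl
    · exfalso
      simp only [Int.cast_neg, Int.cast_one, Units.val_one, mul_one] at h2
      nlinarith [mul_self_nonneg (ev (1 : ℤˣ) f)]
  subst hε1
  have h3 : (T (-k) - T k : ℤ[T;T⁻¹]) * (f * invert f) = 0 := by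
    have h4 := congrArg invert h
    rw [hinv, map_mul, map_mul, map_mul, invert_C, invert_T] at h4
    have h5 : (invert (invert f) : ℤ[T;T⁻¹]) = f := by
      have := LaurentPolynomial.involutive_invert (R := ℤ) f
      exact this
    rw [h5] at h4
    rw [h] at h4
    simp only [map_one, one_mul] at h4
    linear_combination -h4
  have hff : f * invert f ≠ 0 := by
    intro h0
    rw [h, h0, mul_zero, map_zero] at h1
    exact zero_ne_one h1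
  have hk : k = 0 := by
    have h4 := (mul_eq_zero.1 h3).resolve_right hff
    have h5 : (T (-k) : ℤ[T;T⁻¹]) = T k := sub_eq_zero.1 h4
    have h6 := congrArg (ev (Units.mk0 (2 : ℚ) (by norm_num))) h5
    rw [ev_T, ev_T, Units.val_zpow_eq_zpow_val, Units.val_zpow_eq_zpow_val, Units.val_mk0] at h6
    have := zpow_right_injective₀ (by norm_num : (0 : ℚ) < 2) (by norm_num) h6
    omega
  subst hk
  refine ⟨f, ?_⟩
  rw [h]
  simp

lemma invert_alex (b : ℕ) : invert (alex b) = alex b := by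
  have hy : invert (T 1 + T (-1) : ℤ[T;T⁻¹]) = T 1 + T (-1) := by
    rw [map_add, invert_T, invert_T, neg_neg, add_comm]
  have hS : invert (chS b) = chS b := by
    unfold chS
    have h1 := Polynomial.hom_eval₂ (Polynomial.Chebyshev.S ℤ ((b : ℤ) - 1)) (Int.castRingHom ℤ[T;T⁻¹])
      (invert (R := ℤ)).toRingEquiv.toRingHom (T 1 + T (-1))
    have h2 : ∀ x : ℤ[T;T⁻¹], (invert (R := ℤ)).toRingEquiv.toRingHom x = invert x := fun x => rfl
    rw [h2, h2, hy] at h1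
    have h3 : ((invert (R := ℤ)).toRingEquiv.toRingHom).comp (Int.castRingHom ℤ[T;T⁻¹]) = Int.castRingHom ℤ[T;T⁻¹] :=
      RingHom.ext_int _ _
    rw [h3] at h1
    have h4 : ∀ x : ℤ[T;T⁻¹], (Polynomial.Chebyshev.S ℤ[T;T⁻¹] ((b : ℤ) - 1)).eval x =
        Polynomial.eval₂ (Int.castRingHom ℤ[T;T⁻¹]) x (Polynomial.Chebyshev.S ℤ ((b : ℤ) - 1)) := by
      intro x
      rw [← Polynomial.Chebyshev.map_S (Int.castRingHom ℤ[T;T⁻¹]), Polynomial.eval_map]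
    rw [h4]
    exact h1
  unfold alex
  rw [map_add, map_mul, map_sub, map_sub, map_pow (invert) (chS b), hy, hS, map_one, invert_C, map_ofNat]

lemma chS_ev {R : Type*} [CommRing R] (x : Rˣ) (b : ℕ) :
    ev x (chS b) = (Polynomial.Chebyshev.S R ((b : ℤ) - 1)).eval ((x : R) + ((x⁻¹ : Rˣ) : R)) := by
  unfold chS
  have h4 : (Polynomial.Chebyshev.S ℤ[T;T⁻¹] ((b : ℤ) - 1)).eval (T 1 + T (-1)) =
      Polynomial.eval₂ (Int.castRingHom ℤ[T;T⁻¹]) (T 1 + T (-1)) (Polynomial.Chebyshev.S ℤ ((b : ℤ) - 1)) := by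
    rw [← Polynomial.Chebyshev.map_S (Int.castRingHom ℤ[T;T⁻¹]), Polynomial.eval_map]
  rw [h4, Polynomial.hom_eval₂, RingHom.ext_int ((ev x).comp (Int.castRingHom ℤ[T;T⁻¹])) (Int.castRingHom R),
    ← Polynomial.eval_map, Polynomial.Chebyshev.map_S, map_add, ev_T, ev_T, zpow_one, zpow_neg_one]

lemma alex_ev {R : Type*} [CommRing R] (x : Rˣ) (b : ℕ) :
    ev x (alex b) = 1 + (2 - ((x : R) + ((x⁻¹ : Rˣ) : R))) *
      ((b : R) ^ 2 - (Polynomial.Chebyshev.S R ((b : ℤ) - 1)).eval ((x : R) + ((x⁻¹ : Rˣ) : R)) ^ 2) := by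
  unfold alex
  rw [map_add, map_mul, map_sub, map_sub, map_pow (ev x) (chS b), chS_ev, map_one, map_ofNat, map_add, ev_T, ev_T,
    ev_C, zpow_one, zpow_neg_one]
  push_cast
  ring

/-- under the condition of Fox and Milnor -/
theorem fm_alex {b : ℕ} (hf : FoxMilnor (alex b)) : ∃ f : ℤ[T;T⁻¹], alex b = f * invert f := by
  refine fm_norm (invert_alex b) ?_ hf
  rw [alex_ev]
  simp only [inv_one, Units.val_one]
  norm_num

/-- the norm equations at all integers -/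
theorem norm_all {b : ℕ} (hf : FoxMilnor (alex b)) (c : ℤ) : ∃ u v : ℤ,
    1 + (2 - c) * ((b : ℤ) ^ 2 - (Polynomial.Chebyshev.S ℤ ((b : ℤ) - 1)).eval c ^ 2) = u ^ 2 + c * u * v + v ^ 2 := by
  obtain ⟨f, h⟩ := fm_alex hf
  obtain ⟨x, hx⟩ := exists_unit c
  obtain ⟨u, v, h1, h2⟩ := frep hx f
  refine ⟨u, v, ?_⟩
  have h3 := alex_ev x b
  rw [h, map_mul, ev_invert, h1, h2, hx] at h3
  have hm : (x : ℂ) * ((x⁻¹ : ℂˣ) : ℂ) = 1 := by rw [← Units.val_mul]; simp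
  have h5 : (Polynomial.Chebyshev.S ℂ ((b : ℤ) - 1)).eval (c : ℂ) =
      (((Polynomial.Chebyshev.S ℤ ((b : ℤ) - 1)).eval c : ℤ) : ℂ) := by
    rw [← Polynomial.Chebyshev.map_S (Int.castRingHom ℂ), Polynomial.eval_map]
    have := Polynomial.eval₂_at_intCast (p := Polynomial.Chebyshev.S ℤ ((b : ℤ) - 1)) (f := Int.castRingHom ℂ) c
    rw [this]
    simp
  rw [h5] at h3
  have h6 : ((1 + (2 - c) * ((b : ℤ) ^ 2 - (Polynomial.Chebyshev.S ℤ ((b : ℤ) - 1)).eval c ^ 2) : ℤ) : ℂ) =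
      ((u ^ 2 + c * u * v + v ^ 2 : ℤ) : ℂ) := by
    push_cast
    rw [← h3]
    linear_combination (u : ℂ) * v * hx + (v : ℂ) ^ 2 * hm
  exact_mod_cast h6

end Pool.Agent.TH397.PZ
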