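import Mathlib
import Pool.Agent.Helper924.MW.Density

/-! A set of positive integers without prime factors in a fixed residue class has density zero. -/

set_option autoImplicit false

open Pool.Agent.Helper924.MW.Density

namespace Pool.Agent.TH397.PZ

theorem count_le {S : Set ℕ} (F : Finset ℕ) (hF : ∀ p ∈ F, p.Prime)
    (hS : ∀ n ∈ S, ∀ p ∈ F, ¬ p ∣ n) (N : ℕ) :
    (({n : ℕ | 1 ≤ n ∧ n ≤ N ∧ n ∈ S}.ncard : ℕ) : ℝ) ≤
      Real.exp (-∑ p ∈ F, (1 : ℝ) / p) * N + ((∏ p ∈ F, p : ℕ) : ℝ) := by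
  classical
  set M := ∏ p ∈ F, p with hM
  have hM0 : M ≠ 0 := Finset.prod_ne_zero_iff.mpr fun p hp => (hF p hp).ne_zero
  have hsub : {n : ℕ | 1 ≤ n ∧ n ≤ N ∧ n ∈ S} ⊆
      (((Finset.Ico 1 (1 + N)).filter (fun x => M.Coprime x) : Finset ℕ) : Set ℕ) := by
    rintro n ⟨h1, h2, h3⟩
    rw [Finset.mem_coe, Finset.mem_filter, Finset.mem_Ico]
    refine ⟨⟨h1, by omega⟩, ?_⟩
    apply Nat.Coprime.prod_left
    intro p hp
    rw [(hF p hp).coprime_iff_not_dvd]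
    exact hS n h3 p hp
  have h1 : {n : ℕ | 1 ≤ n ∧ n ≤ N ∧ n ∈ S}.ncard ≤ Nat.totient M * (N / M + 1) := by
    refine (Set.ncard_le_ncard hsub (Finset.finite_toSet _)).trans ?_
    rw [Set.ncard_coe_finset]
    exact Nat.Ico_filter_coprime_le 1 N hM0
  have h2 : (({n : ℕ | 1 ≤ n ∧ n ≤ N ∧ n ∈ S}.ncard : ℕ) : ℝ) ≤
      (Nat.totient M : ℝ) * (((N / M : ℕ) : ℝ) + 1) := by
    exact_mod_cast h1
  have hM0' : (0 : ℝ) < M := by exact_mod_cast Nat.pos_of_ne_zero hM0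
  have h3 : ((N / M : ℕ) : ℝ) ≤ (N : ℝ) / M := Nat.cast_div_le
  have h4 := totient_prod_le F hF
  rw [← hM] at h4
  have h5 : (Nat.totient M : ℝ) ≤ M := by exact_mod_cast Nat.totient_le M
  calc (({n : ℕ | 1 ≤ n ∧ n ≤ N ∧ n ∈ S}.ncard : ℕ) : ℝ)
      ≤ (Nat.totient M : ℝ) * (((N / M : ℕ) : ℝ) + 1) := h2
    _ = (Nat.totient M : ℝ) * ((N / M : ℕ) : ℝ) + (Nat.totient M : ℝ) := by ring
    _ ≤ (M * Real.exp (-∑ p ∈ F, (1 : ℝ) / p)) * ((N : ℝ) / M) + M := by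
        refine add_le_add (mul_le_mul h4 h3 (by positivity) (by positivity)) h5
    _ = Real.exp (-∑ p ∈ F, (1 : ℝ) / p) * N + M := by
        field_simp

/-- density zero -/
theorem density_zero {S : Set ℕ} {q : ℕ} [NeZero q] {r : ZMod q} (hr : IsUnit r)
    (hS : ∀ n ∈ S, ∀ p : ℕ, p.Prime → (p : ZMod q) = r → ¬ p ∣ n) :
    Filter.Tendsto (fun N : ℕ => (({n : ℕ | 1 ≤ n ∧ n ≤ N ∧ n ∈ S}.ncard : ℕ) : ℝ) / (N : ℝ))
      Filter.atTop (nhds 0) := by
  classical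
  have hns := not_summable_g (q := q) hr
  rw [Metric.tendsto_atTop]
  intro ε hε
  obtain ⟨F0, hF0⟩ : ∃ F0 : Finset ℕ, Real.log (2 / ε) + 1 < ∑ n ∈ F0, g r n := by
    by_contra hcon
    push Not at hcon
    exact hns (summable_of_sum_le (fun n => g_nonneg _ n) hcon)
  set F := F0.filter (fun n => n.Prime ∧ ((n : ℕ) : ZMod q) = r) with hFdef
  have hsum : ∑ n ∈ F0, g r n = ∑ p ∈ F, (1 : ℝ) / p := by
    rw [hFdef, Finset.sum_filter]
    rfl
  have hF : ∀ p ∈ F, p.Prime ∧ (p : ZMod q) = r := by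
    intro p hp
    rw [hFdef, Finset.mem_filter] at hp
    exact hp.2
  have hexp : Real.exp (-∑ p ∈ F, (1 : ℝ) / p) < ε / 2 := by
    rw [hsum] at hF0
    calc Real.exp (-∑ p ∈ F, (1 : ℝ) / p) < Real.exp (-Real.log (2 / ε)) := by
          apply Real.exp_lt_exp.mpr
          linarith
      _ = ε / 2 := by
          rw [Real.exp_neg, Real.exp_log (by positivity)]
          field_simp
  set M := ∏ p ∈ F, p with hM
  obtain ⟨N0, hN0⟩ := exists_nat_gt (2 * (M : ℝ) / ε)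
  refine ⟨N0 + 1, fun N hN => ?_⟩
  have hNpos : (0 : ℝ) < N := by
    have : 0 < N := by omega
    exact_mod_cast this
  have hNN : 2 * (M : ℝ) / ε < N := by
    have : (N0 : ℝ) ≤ N := by exact_mod_cast (by omega : N0 ≤ N)
    linarith
  have hMN : (M : ℝ) < ε / 2 * N := by
    rw [div_lt_iff₀ hε] at hNN
    linarith
  have hbound := count_le (S := S) F (fun p hp => (hF p hp).1) (fun n hn p hp => hS n hn p (hF p hp).1 (hF p hp).2) N
  rw [← hM] at hbound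
  rw [Real.dist_eq, sub_zero, abs_of_nonneg (by positivity), div_lt_iff₀ hNpos]
  have h6 : Real.exp (-∑ p ∈ F, (1 : ℝ) / p) * N < ε / 2 * N :=
    mul_lt_mul_of_pos_right hexp hNpos
  linarith

end Pool.Agent.TH397.PZ
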